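import Pool.Agent.W978.QP.Stm
import Pool.Agent.W585.QN.DET

/-! Project QP, part QP-DET: smooth implies that the determinant is not identically zero
(port of the part QN-DET). -/

set_option autoImplicit false

namespace Pool.Agent.W583.QP

open Pool.Agent.W978.QP
open Pool.Agent.W978.QN (mnr)
open Pool.Agent.W585.QN (mnr_zero trace_zero)

/-- the matrix with the first argument fixed -/
def NM (b : Fin 2 → Fin 3 → Fin 3 → ℤ) (p : Fin 2 → ℂ) : Matrix (Fin 3) (Fin 3) ℂ :=
  Matrix.of (mp b p)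

theorem core (b : Fin 2 → Fin 3 → Fin 3 → ℤ) (hrk : Rk2 b) (hdet : ∀ p, (NM b p).det = 0) :
    ∃ (p : Fin 2 → ℂ) (q r : Fin 3 → ℂ), p ≠ 0 ∧ q ≠ 0 ∧ r ≠ 0 ∧
      (∀ v, fv b v q r = 0) ∧ (∀ v, fv b p v r = 0) ∧ (∀ v, fv b p q v = 0) := by
  obtain ⟨p, hp⟩ : ∃ p : Fin 2 → ℂ, p ≠ 0 :=
    ⟨fun _ => 1, fun h => one_ne_zero (α := ℂ) (congrFun h 0)⟩
  obtain ⟨k, k', j, j', hk⟩ := hrk p hp
  obtain ⟨A, hA⟩ : ∃ A, A = (NM b p).adjugate := ⟨_, rfl⟩
  have hA0 : A ≠ 0 := by
    intro h
    exact hk (mnr_zero (NM b p) (by rw [← hA, h]) k k' j j')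
  obtain ⟨i0, j0, hij⟩ : ∃ i0 j0, A i0 j0 ≠ 0 := by
    by_contra hcon
    push Not at hcon
    exact hA0 (by ext i j; exact hcon i j)
  have hadj : A.adjugate = 0 := by
    rw [hA, Matrix.adjugate_adjugate _ (by simp), hdet p]
    simp
  have hNA : NM b p * A = 0 := by rw [hA, Matrix.mul_adjugate, hdet p, zero_smul]
  have hAN : A * NM b p = 0 := by rw [hA, Matrix.adjugate_mul, hdet p, zero_smul]
  have hcf : ∀ (x : Fin 2 → ℂ) (y z : Fin 3 → ℂ), fv b x y z =
      ∑ u, ∑ w, NM b x u w * (z u * y w) := by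
    intro x y z
    simp only [fv, NM, mp, Matrix.of_apply, Fin.sum_univ_three, Fin.sum_univ_two]
    ring
  refine ⟨p, fun w => A w j0, fun u => A i0 u, hp, fun h => hij (congrFun h i0),
    fun h => hij (congrFun h j0), fun v => ?_, fun v => ?_, fun v => ?_⟩
  · have hlin1 : NM b (p + v) = NM b p + NM b v := by
      ext u w
      simp only [NM, mp, Matrix.of_apply, Matrix.add_apply, Pi.add_apply, mul_add,
        Finset.sum_add_distrib]
    have hlin2 : NM b (p - v) = NM b p - NM b v := by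
      ext u w
      simp only [NM, mp, Matrix.of_apply, Matrix.sub_apply, Pi.sub_apply, mul_sub,
        Finset.sum_sub_distrib]
    have htr := trace_zero (NM b p) (NM b v) (hdet v) (by rw [← hlin1]; exact hdet _)
      (by rw [← hlin2]; exact hdet _)
    rw [← hA] at htr
    rw [hcf]
    have hm : ∀ w u, A i0 u * A w j0 = A i0 j0 * A w u := by
      intro w u
      have := mnr_zero A hadj i0 w j0 u
      simp only [mnr] at this
      linear_combination -this
    have h3 : ∑ u, ∑ w, NM b v u w * (A i0 u * A w j0) =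
        A i0 j0 * ∑ w, ∑ u, A w u * NM b v u w := by
      rw [Finset.mul_sum, Finset.sum_comm]
      refine Finset.sum_congr rfl fun w _ => ?_
      rw [Finset.mul_sum]
      refine Finset.sum_congr rfl fun u _ => ?_
      rw [hm w u]; ring
    rw [h3, htr, mul_zero]
  · rw [hcf, Finset.sum_comm]
    refine Finset.sum_eq_zero fun w _ => ?_
    have h4 : ∑ u, A i0 u * NM b p u w = 0 := by
      have := congrFun (congrFun hAN i0) w
      rwa [Matrix.mul_apply] at this
    have h5 : ∑ u, NM b p u w * (A i0 u * v w) = v w * ∑ u, A i0 u * NM b p u w := by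
      rw [Finset.mul_sum]
      exact Finset.sum_congr rfl fun w _ => by ring
    rw [h5, h4, mul_zero]
  · rw [hcf]
    refine Finset.sum_eq_zero fun u _ => ?_
    have h4 : ∑ w, NM b p u w * A w j0 = 0 := by
      have := congrFun (congrFun hNA u) j0
      rwa [Matrix.mul_apply] at this
    have h5 : ∑ w, NM b p u w * (v u * A w j0) = v u * ∑ w, NM b p u w * A w j0 := by
      rw [Finset.mul_sum]
      exact Finset.sum_congr rfl fun w _ => by ring
    rw [h5, h4, mul_zero]

theorem det (hRK : S_RK) : S_DET := by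
  intro b hb
  by_contra hcon
  push Not at hcon
  obtain ⟨p, q, r, hp, hq, hr, h1, h2, h3⟩ := core b (hRK b hb) hcon
  rcases hb p q r hp hq hr (h1 p) with ⟨v, hv⟩ | ⟨v, hv⟩ | ⟨v, hv⟩
  · exact hv (h1 v)
  · exact hv (h2 v)
  · exact hv (h3 v)

end Pool.Agent.W583.QP
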